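import Mathlib

/-! Reduction to polynomials with natural coefficients, and the transfer of counts. -/

namespace Pool.Agent.Lib.MP_86b630_nt

open Finset Polynomial Filter

lemma eventually_eval_pos {R : ℤ[X]} (h : 0 < R.leadingCoeff) :
    ∀ᶠ b : ℕ in atTop, 0 < R.eval (b : ℤ) := by
  have hinj : Function.Injective (Int.castRingHom ℝ) := Int.cast_injective
  have hlc : (R.map (Int.castRingHom ℝ)).leadingCoeff = (R.leadingCoeff : ℝ) := by
    rw [leadingCoeff_map_of_injective hinj]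
    rfl
  have hcast : ∀ b : ℕ, ((R.eval (b : ℤ) : ℤ) : ℝ) =
      (R.map (Int.castRingHom ℝ)).eval ((b : ℕ) : ℝ) := by
    intro b
    have := eval_natCast_map (Int.castRingHom ℝ) R b
    rw [this]
    simp
  rcases Nat.eq_zero_or_pos R.natDegree with h0 | h0
  · rw [natDegree_eq_zero] at h0
    obtain ⟨c, rfl⟩ := h0
    rw [leadingCoeff_C] at h
    exact Filter.Eventually.of_forall fun b => by simpa using h
  · have hdeg : 0 < (R.map (Int.castRingHom ℝ)).degree := by
      rw [degree_map_eq_of_injective hinj]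
      exact natDegree_pos_iff_degree_pos.mp h0
    have h1 := tendsto_atTop_of_leadingCoeff_nonneg _ hdeg (by
      rw [hlc]
      exact_mod_cast h.le)
    have h2 := h1.comp (tendsto_natCast_atTop_atTop (R := ℝ))
    filter_upwards [h2.eventually (eventually_gt_atTop 0)] with b hb
    simp only [Function.comp] at hb
    rw [← hcast] at hb
    exact_mod_cast hb

lemma leadingCoeff_pos {P : ℤ[X]} (hd : 1 ≤ P.natDegree) (hP : ∀ n : ℕ, 0 ≤ P.eval (n : ℤ)) :
    0 < P.leadingCoeff := by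
  by_contra h
  have h0 : P.leadingCoeff ≠ 0 := by
    rw [leadingCoeff_ne_zero]
    rintro rfl
    simp at hd
  have h1 : 0 < (-P).leadingCoeff := by
    rw [leadingCoeff_neg]
    have : P.leadingCoeff < 0 := lt_of_le_of_ne (not_lt.mp h) h0
    omega
  obtain ⟨b, hb⟩ := (eventually_eval_pos h1).exists
  rw [eval_neg] at hb
  have := hP b
  omega

lemma exists_shift {P : ℤ[X]} (hd : 1 ≤ P.natDegree) (hP : ∀ n : ℕ, 0 ≤ P.eval (n : ℤ))
    (a : ℕ) {q : ℕ} (hq : 0 < q) : ∃ b : ℕ, b ≡ a [MOD q] ∧ ∃ Q : ℕ[X],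
      Q.natDegree = P.natDegree ∧ (∀ x : ℕ, ((Q.eval x : ℕ) : ℤ) = P.eval ((x + b : ℕ) : ℤ)) ∧
        0 < Q.coeff 1 := by
  have hlc := leadingCoeff_pos hd hP
  have h1 : ∀ i ∈ range (P.natDegree + 1), ∀ᶠ b : ℕ in atTop, 0 < (hasseDeriv i P).eval (b : ℤ) := by
    intro i hi
    rw [mem_range] at hi
    apply eventually_eval_pos
    rw [leadingCoeff, natDegree_hasseDeriv, hasseDeriv_coeff, Nat.sub_add_cancel (by omega)]
    have h2 : 0 < P.natDegree.choose i := Nat.choose_pos (by omega)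
    exact mul_pos (by exact_mod_cast h2) hlc
  have h2 : ∀ᶠ b : ℕ in atTop, ∀ i ∈ range (P.natDegree + 1),
      0 < (hasseDeriv i P).eval (b : ℤ) := (Filter.eventually_all_finset _).mpr h1
  have h3 : Tendsto (fun s : ℕ => a + q * s) atTop atTop :=
    tendsto_atTop_mono (fun s => (Nat.le_mul_of_pos_left s hq).trans (Nat.le_add_left _ _))
      tendsto_id
  obtain ⟨s, hs⟩ := (h3.eventually h2).exists
  refine ⟨a + q * s, ?_, ?_⟩
  · simp [Nat.ModEq]
  · set b := a + q * s with hb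
    set R := taylor (b : ℤ) P with hR
    have hRd : R.natDegree = P.natDegree := natDegree_taylor _ _
    have hRc : ∀ i ≤ P.natDegree, 0 < R.coeff i := by
      intro i hi
      rw [hR, taylor_coeff]
      exact hs i (mem_range.mpr (by omega))
    let Q : ℕ[X] := ∑ i ∈ range (P.natDegree + 1), monomial i (R.coeff i).toNat
    have hQc : ∀ i, Q.coeff i = if i ≤ P.natDegree then (R.coeff i).toNat else 0 := by
      intro i
      simp only [Q, finsetSum_coeff, coeff_monomial]
      rw [Finset.sum_ite_eq' (range (P.natDegree + 1)) i]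
      simp only [mem_range, Nat.lt_succ_iff]
    have hQR : Q.map (Nat.castRingHom ℤ) = R := by
      ext i
      rw [coeff_map, hQc]
      split_ifs with hi
      · have := hRc i hi
        simp [Int.toNat_of_nonneg this.le, this.le]
      · rw [coeff_eq_zero_of_natDegree_lt (by omega)]
        simp
    have hinj : Function.Injective (Nat.castRingHom ℤ) := Nat.cast_injective
    refine ⟨Q, ?_, ?_, ?_⟩
    · rw [← hRd, ← hQR, natDegree_map_eq_of_injective hinj]
    · intro x
      have h4 := eval_natCast_map (Nat.castRingHom ℤ) Q x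
      rw [hQR, hR, taylor_eval] at h4
      push_cast
      rw [h4]
      simp
    · rw [hQc, if_pos hd]
      have := hRc 1 hd
      omega

open Classical in
lemma transfer (S : ℕ → Prop) (d M : ℕ) {κ : ℝ} (hκ : 0 < κ)
    (h : ∀ᶠ g : ℕ in atTop,
      κ * 4 ^ g ≤ (#{n ∈ range (2 ^ ((d + 1) * g + M)) | S n} : ℝ)) :
    ∃ c : ℝ, 0 < c ∧ ∀ᶠ N : ℕ in atTop,
      c * (N : ℝ) ^ ((2 : ℝ) / (d + 1)) ≤ (#{n ∈ range N | S n} : ℝ) := by
  rw [eventually_atTop] at h
  obtain ⟨g₀, hg₀⟩ := h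
  refine ⟨κ / 4 ^ (M + 1), by positivity, ?_⟩
  filter_upwards [eventually_ge_atTop (2 ^ ((d + 1) * g₀ + M))] with N hN
  have hN0 : N ≠ 0 := by
    have : 0 < 2 ^ ((d + 1) * g₀ + M) := by positivity
    omega
  set L := Nat.log 2 N with hL
  have hLN : 2 ^ L ≤ N := Nat.pow_log_le_self 2 hN0
  have hNL : N < 2 ^ (L + 1) := Nat.lt_pow_succ_log_self (by norm_num) N
  have hL0 : (d + 1) * g₀ + M ≤ L := by
    rw [hL]
    exact (Nat.le_log_iff_pow_le (by norm_num) hN0).mpr hN
  set g := (L - M) / (d + 1) with hg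
  have hg0 : g₀ ≤ g := by
    rw [hg, Nat.le_div_iff_mul_le (by omega)]
    have : g₀ * (d + 1) = (d + 1) * g₀ := mul_comm _ _
    omega
  have hg1 : (d + 1) * g ≤ L - M := Nat.mul_div_le _ _
  have hg2 : L - M < (d + 1) * (g + 1) := Nat.lt_mul_div_succ _ (by omega)
  have h1 : 2 ^ ((d + 1) * g + M) ≤ N :=
    (Nat.pow_le_pow_right (by norm_num) (by omega)).trans hLN
  have h2 : (κ * 4 ^ g : ℝ) ≤ (#{n ∈ range N | S n} : ℝ) := by
    refine (hg₀ g hg0).trans ?_
    have : #{n ∈ range (2 ^ ((d + 1) * g + M)) | S n} ≤ #{n ∈ range N | S n} := by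
      apply card_le_card
      apply filter_subset_filter
      exact range_subset_range.mpr h1
    exact_mod_cast this
  refine le_trans ?_ h2
  have h3 : N ≤ (2 ^ (M + g + 1)) ^ (d + 1) := by
    rw [← pow_mul]
    refine hNL.le.trans (Nat.pow_le_pow_right (by norm_num) ?_)
    have h4 : (M + g + 1) * (d + 1) = (d + 1) * (g + 1) + M * d + M := by ring
    omega
  have h4 : (N : ℝ) ^ ((2 : ℝ) / (d + 1)) ≤ 4 ^ (M + 1) * 4 ^ g := by
    have h5 : (N : ℝ) ≤ ((2 : ℝ) ^ (M + g + 1)) ^ (d + 1) := by exact_mod_cast h3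
    calc (N : ℝ) ^ ((2 : ℝ) / (d + 1)) ≤ (((2 : ℝ) ^ (M + g + 1)) ^ (d + 1)) ^ ((2 : ℝ) / (d + 1)) :=
          Real.rpow_le_rpow (by positivity) h5 (by positivity)
      _ = ((2 : ℝ) ^ (M + g + 1)) ^ (2 : ℕ) := by
          rw [← Real.rpow_natCast (((2 : ℝ) ^ (M + g + 1))) (d + 1), ← Real.rpow_mul (by positivity)]
          have : (((d + 1 : ℕ) : ℝ)) * ((2 : ℝ) / (d + 1)) = ((2 : ℕ) : ℝ) := by
            push_cast
            field_simp
          rw [this, Real.rpow_natCast]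
      _ = 4 ^ (M + 1) * 4 ^ g := by
          have : (4 : ℝ) = 2 ^ 2 := by norm_num
          rw [this, ← pow_mul, ← pow_mul, ← pow_mul, ← pow_add]
          congr 1
          ring
  calc κ / 4 ^ (M + 1) * (N : ℝ) ^ ((2 : ℝ) / (d + 1)) ≤ κ / 4 ^ (M + 1) * (4 ^ (M + 1) * 4 ^ g) := by
        gcongr
    _ = κ * 4 ^ g := by field_simp

end Pool.Agent.Lib.MP_86b630_nt
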