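import Mathlib

/-! The leading digits of `Q (C + j)`, and bounds for polynomials. -/

namespace Pool.Agent.Lib.MP_86b630_nt

open Finset Polynomial Filter

lemma eval_le {R : ℕ[X]} {n : ℕ} (hn : R.natDegree ≤ n) {x : ℕ} (hx : 1 ≤ x) :
    R.eval x ≤ R.eval 1 * x ^ n := by
  rw [eval_eq_sum_range, eval_eq_sum_range, sum_mul]
  apply sum_le_sum
  intro i hi
  rw [mem_range] at hi
  rw [one_pow, mul_one]
  exact Nat.mul_le_mul_left _ (Nat.pow_le_pow_right hx (by omega))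

lemma eval_lt_eval {R : ℕ[X]} (hR : 1 ≤ R.natDegree) {x y : ℕ} (h : x < y) :
    R.eval x < R.eval y := by
  rw [eval_eq_sum_range, eval_eq_sum_range]
  apply sum_lt_sum
  · intro i _
    exact Nat.mul_le_mul_left _ (Nat.pow_le_pow_left h.le _)
  · refine ⟨R.natDegree, mem_range.mpr (by omega), ?_⟩
    have h1 : 0 < R.coeff R.natDegree := by
      rw [Nat.pos_iff_ne_zero]
      intro h2
      rw [coeff_natDegree, leadingCoeff_eq_zero] at h2
      rw [h2] at hR
      simp at hR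
    exact Nat.mul_lt_mul_of_pos_left (Nat.pow_lt_pow_left h (by omega)) h1

lemma eval_one_le_derivative {Q : ℕ[X]} (h : 0 < Q.coeff 1) (x : ℕ) :
    0 < (derivative Q).eval x := by
  have h1 : (derivative Q).coeff 0 = Q.coeff 1 := by
    rw [coeff_derivative]
    simp
  have h2 : (derivative Q).coeff 0 ≤ (derivative Q).eval x := by
    rw [eval_eq_sum_range]
    have := single_le_sum (f := fun i => (derivative Q).coeff i * x ^ i)
      (fun _ _ => Nat.zero_le _) (mem_range.mpr (Nat.succ_pos (derivative Q).natDegree))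
    simpa using this
  omega

lemma exists_root {d : ℕ} (hd : 1 ≤ d) {y : ℝ} (hy : 0 < y) : ∃ x : ℝ, 0 < x ∧ x ^ d = y := by
  refine ⟨y ^ ((d : ℝ)⁻¹), Real.rpow_pos_of_pos hy _, ?_⟩
  exact Real.rpow_inv_natCast_pow hy.le (by omega)

lemma top_digits {Q : ℕ[X]} (hd : 1 ≤ Q.natDegree) {P : ℕ} (hP : 0 < P) (k : ℕ) :
    ∃ α β γ : ℝ, 0 < α ∧ α < β ∧ β < γ ∧ ∀ᶠ g : ℕ in atTop, ∀ C : ℕ, α * 2 ^ g ≤ C →
      (C : ℝ) ≤ β * 2 ^ g → ∀ j ≤ k, ((C + j : ℕ) : ℝ) ≤ γ * 2 ^ g ∧ 1 ≤ C ∧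
        Q.eval (C + j) / 2 ^ (Q.natDegree * g) = P := by
  set d := Q.natDegree with hdd
  have hQ0 : Q ≠ 0 := by
    rintro rfl
    simp at hdd
    omega
  set L : ℝ := (Q.leadingCoeff : ℝ) with hL
  have hLpos : 0 < L := by
    have : 0 < Q.leadingCoeff := Nat.pos_of_ne_zero (leadingCoeff_ne_zero.mpr hQ0)
    rw [hL]
    exact Nat.cast_pos.mpr this
  have hPr : (0 : ℝ) < P := by exact_mod_cast hP
  obtain ⟨α, hα, hαe⟩ := exists_root hd (y := (P + 1 / 4) / L) (by positivity)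
  obtain ⟨β, hβ, hβe⟩ := exists_root hd (y := (P + 1 / 2) / L) (by positivity)
  obtain ⟨γ, hγ, hγe⟩ := exists_root hd (y := (P + 3 / 4) / L) (by positivity)
  have hαβ : α < β := by
    apply lt_of_pow_lt_pow_left₀ d hβ.le
    rw [hαe, hβe]
    gcongr
    norm_num
  have hβγ : β < γ := by
    apply lt_of_pow_lt_pow_left₀ d hγ.le
    rw [hβe, hγe]
    apply div_lt_div_of_pos_right _ hLpos
    linarith
  refine ⟨α, β, γ, hα, hαβ, hβγ, ?_⟩
  -- the polynomial over the reals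
  set R : ℝ[X] := Q.map (Nat.castRingHom ℝ) with hR
  have hinj : Function.Injective (Nat.castRingHom ℝ) := Nat.cast_injective
  have hRd : R.natDegree = d := natDegree_map_eq_of_injective hinj _
  have hRlc : R.leadingCoeff = L := by
    rw [hR, leadingCoeff_map_of_injective hinj]
    rfl
  have hR0 : R ≠ 0 := by
    rw [← leadingCoeff_ne_zero, hRlc]
    exact hLpos.ne'
  have hlim : Tendsto (fun x : ℝ => R.eval x / x ^ d) atTop (nhds L) := by
    have h1 := div_tendsto_atTop_leadingCoeff_div_of_degree_eq R (X ^ d) (by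
      rw [degree_X_pow, degree_eq_natDegree hR0, hRd])
    rw [hRlc, leadingCoeff_X_pow, div_one] at h1
    simpa using h1
  set ε : ℝ := 1 / (8 * γ ^ d) with hε
  have hεpos : 0 < ε := by positivity
  have hclose : ∀ᶠ x : ℝ in atTop, |R.eval x / x ^ d - L| < ε := by
    have := Metric.tendsto_nhds.mp hlim ε hεpos
    simpa [Real.dist_eq] using this
  rw [eventually_atTop] at hclose
  obtain ⟨x₀, hx₀⟩ := hclose
  have hpow : Tendsto (fun g : ℕ => (2 : ℝ) ^ g) atTop atTop :=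
    tendsto_pow_atTop_atTop_of_one_lt (by norm_num)
  have e1 : ∀ᶠ g : ℕ in atTop, x₀ ≤ α * 2 ^ g :=
    (hpow.const_mul_atTop hα).eventually_ge_atTop x₀
  have e2 : ∀ᶠ g : ℕ in atTop, (k : ℝ) ≤ (γ - β) * 2 ^ g :=
    (hpow.const_mul_atTop (by linarith)).eventually_ge_atTop _
  filter_upwards [e1, e2] with g hg1 hg2
  intro C hC1 hC2 j hj
  have h2g : (0 : ℝ) < 2 ^ g := by positivity
  have hC0 : (0 : ℝ) < C := lt_of_lt_of_le (by positivity) hC1
  have hjk : (j : ℝ) ≤ k := by exact_mod_cast hj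
  set x : ℝ := ((C + j : ℕ) : ℝ) with hx
  have hx' : x = C + j := by rw [hx]; push_cast; ring
  have hxα : α * 2 ^ g ≤ x := by
    rw [hx']
    have : (0 : ℝ) ≤ j := by positivity
    linarith
  have hxγ : x ≤ γ * 2 ^ g := by
    rw [hx']
    nlinarith
  have hx0 : 0 < x := lt_of_lt_of_le (by positivity) hxα
  have hC1' : 1 ≤ C := by exact_mod_cast hC0
  refine ⟨hxγ, hC1', ?_⟩
  have h1 := hx₀ x (hg1.trans hxα)
  rw [abs_lt] at h1
  have hxd : 0 < x ^ d := by positivity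
  have hev : R.eval x = ((Q.eval (C + j) : ℕ) : ℝ) := by
    rw [hx, hR, eval_natCast_map]
    simp
  -- lower bound
  have hγd : γ ^ d * L = P + 3 / 4 := by rw [hγe]; field_simp
  have hαd : α ^ d * L = P + 1 / 4 := by rw [hαe]; field_simp
  have hεγ : ε * γ ^ d = 1 / 8 := by rw [hε]; field_simp
  have hαγd : α ^ d ≤ γ ^ d := pow_le_pow_left₀ hα.le (by linarith) d
  have hεα : ε * α ^ d ≤ 1 / 8 := by
    rw [← hεγ]
    gcongr
  have hLε : 0 < L - ε := by
    have h3 : 0 < (L - ε) * α ^ d := by nlinarith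
    exact (pos_iff_pos_of_mul_pos h3).mpr (by positivity)
  have hlow : (P : ℝ) * 2 ^ (d * g) ≤ R.eval x := by
    have h3 : (L - ε) * x ^ d ≤ R.eval x := by
      have h4 : L - ε < R.eval x / x ^ d := by linarith [h1.1]
      rw [lt_div_iff₀ hxd] at h4
      exact h4.le
    have h5 : (α * 2 ^ g) ^ d ≤ x ^ d := pow_le_pow_left₀ (by positivity) hxα d
    have h6 : (2 : ℝ) ^ (d * g) = (2 ^ g) ^ d := by rw [← pow_mul, mul_comm]
    calc (P : ℝ) * 2 ^ (d * g) ≤ ((L - ε) * α ^ d) * 2 ^ (d * g) := by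
          gcongr
          nlinarith
      _ = (L - ε) * (α * 2 ^ g) ^ d := by rw [h6, mul_pow]; ring
      _ ≤ (L - ε) * x ^ d := by gcongr
      _ ≤ _ := h3
  have hup : R.eval x < ((P : ℝ) + 1) * 2 ^ (d * g) := by
    have h3 : R.eval x < (L + ε) * x ^ d := by
      have h4 : R.eval x / x ^ d < L + ε := by linarith [h1.2]
      rwa [div_lt_iff₀ hxd] at h4
    have h5 : x ^ d ≤ (γ * 2 ^ g) ^ d := pow_le_pow_left₀ hx0.le hxγ d
    have h6 : (2 : ℝ) ^ (d * g) = (2 ^ g) ^ d := by rw [← pow_mul, mul_comm]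
    calc R.eval x < (L + ε) * x ^ d := h3
      _ ≤ (L + ε) * (γ * 2 ^ g) ^ d := by gcongr
      _ = ((L + ε) * γ ^ d) * 2 ^ (d * g) := by rw [h6, mul_pow]; ring
      _ ≤ ((P : ℝ) + 1) * 2 ^ (d * g) := by
          gcongr
          nlinarith
  rw [hev] at hlow hup
  apply Nat.div_eq_of_lt_le
  · exact_mod_cast hlow
  · exact_mod_cast hup

end Pool.Agent.Lib.MP_86b630_nt
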