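import Pool.Agent.Lib.MP_86b630_nt.Identity
import Pool.Agent.Lib.MP_86b630_nt.Reduce
import Pool.Agent.Lib.MP_86b630_nt.Top

/-! Counting the occurrences of a word for polynomials with natural coefficients. -/

namespace Pool.Agent.Lib.MP_86b630_nt

open Finset Polynomial Filter

lemma level_bound {Q : ℕ[X]} {r μ g' x Z i : ℕ}
    (hμ : ∑ i ∈ range (Q.natDegree + 1), (hasseDeriv i Q).eval 1 < 2 ^ μ)
    (hx1 : 1 ≤ x) (hx : x ≤ 2 ^ (r * Q.natDegree + μ + g' + r)) (hZ : Z ≤ 2 ^ g')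
    (hi : 1 ≤ i) (hid : i ≤ Q.natDegree) :
    (hasseDeriv i Q).eval x * Z ^ i < 2 ^ (Q.natDegree * (r * Q.natDegree + μ + g')) := by
  have h1 : (hasseDeriv i Q).eval x ≤ (hasseDeriv i Q).eval 1 * x ^ (Q.natDegree - i) :=
    eval_le (natDegree_hasseDeriv Q i).le hx1
  have h2 : (hasseDeriv i Q).eval 1 < 2 ^ μ := by
    refine lt_of_le_of_lt ?_ hμ
    exact single_le_sum (f := fun i => (hasseDeriv i Q).eval 1) (fun _ _ => Nat.zero_le _)
      (mem_range.mpr (by omega))
  obtain ⟨n, hn⟩ : ∃ n, Q.natDegree = i + n := ⟨Q.natDegree - i, by omega⟩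
  rw [hn] at h1 hx ⊢
  rw [Nat.add_sub_cancel_left] at h1
  have h3 : x ^ n ≤ 2 ^ ((r * (i + n) + μ + g' + r) * n) := by
    rw [pow_mul]
    exact Nat.pow_le_pow_left hx n
  have h4 : Z ^ i ≤ 2 ^ (g' * i) := by
    rw [pow_mul]
    exact Nat.pow_le_pow_left hZ i
  calc (hasseDeriv i Q).eval x * Z ^ i
      ≤ ((hasseDeriv i Q).eval 1 * x ^ n) * Z ^ i := Nat.mul_le_mul_right _ h1
    _ ≤ ((hasseDeriv i Q).eval 1 * 2 ^ ((r * (i + n) + μ + g' + r) * n)) * 2 ^ (g' * i) :=
        Nat.mul_le_mul (Nat.mul_le_mul_left _ h3) h4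
    _ = (hasseDeriv i Q).eval 1 * 2 ^ ((r * (i + n) + μ + g' + r) * n + g' * i) := by
        rw [mul_assoc, ← pow_add]
    _ < 2 ^ μ * 2 ^ ((r * (i + n) + μ + g' + r) * n + g' * i) :=
        Nat.mul_lt_mul_of_pos_right h2 (by positivity)
    _ = 2 ^ (μ + ((r * (i + n) + μ + g' + r) * n + g' * i)) := by rw [← pow_add]
    _ ≤ 2 ^ ((i + n) * (r * (i + n) + μ + g')) := by
        apply Nat.pow_le_pow_right (by norm_num)
        obtain ⟨i', rfl⟩ : ∃ i', i = i' + 1 := ⟨i - 1, by omega⟩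
        nlinarith [Nat.zero_le (i' * (r * (i' + 1 + n) + μ)), Nat.zero_le (r * (i' + 1)),
          Nat.zero_le (r * i')]

/-- The good positions. -/
def Good (Q : ℕ[X]) (q k : ℕ) (w : Fin k → ZMod 2) (m : ℕ) : Prop :=
  q ∣ m ∧ ∀ j : Fin k, tau (Q.eval (m + j)) = w j

open Classical in
theorem count_nat {Q : ℕ[X]} (hd : 2 ≤ Q.natDegree) (hQ1 : 0 < Q.coeff 1) {q : ℕ} (hq : 0 < q)
    (k : ℕ) (w : Fin k → ZMod 2) : ∃ κ : ℝ, 0 < κ ∧ ∃ M : ℕ, ∀ᶠ g : ℕ in atTop,
      κ * 4 ^ g ≤ (#{m ∈ range (2 ^ ((Q.natDegree + 1) * g + M)) | Good Q q k w m} : ℝ) := by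
  have hder : 1 ≤ (derivative Q).natDegree := by
    rw [← hasseDeriv_one, natDegree_hasseDeriv]
    omega
  obtain ⟨z, P, cm, hz, hP, hpat⟩ := exists_pattern k (fun j => q * (derivative Q).eval j)
    (fun i j hij _ => Nat.mul_lt_mul_of_pos_left (eval_lt_eval hder hij) hq)
    (fun i _ => Nat.mul_pos hq (eval_one_le_derivative hQ1 i))
  -- the modulus
  obtain ⟨F, hF1, hF⟩ : ∃ F : ℕ, 1 ≤ F ∧ ∀ j < k, P + z * (q * (derivative Q).eval j) < 2 ^ F := by
    refine ⟨P + ∑ j ∈ range k, z * (q * (derivative Q).eval j), by omega, fun j hj => ?_⟩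
    have h1 := Finset.single_le_sum (f := fun j => z * (q * (derivative Q).eval j))
      (fun _ _ => Nat.zero_le _) (Finset.mem_range.mpr hj)
    refine lt_of_le_of_lt ?_ Nat.lt_two_pow_self
    exact Nat.add_le_add_left h1 P
  obtain ⟨α, β, γ, hα, hαβ, hβγ, htop⟩ := top_digits (Q := Q) (by omega) hP k
  obtain ⟨r, hr⟩ : ∃ r : ℕ, γ ≤ 2 ^ r := pow_unbounded_of_one_lt γ (by norm_num : (1 : ℝ) < 2) |>.imp
    fun _ h => h.le
  set d := Q.natDegree with hdd
  obtain ⟨μ, hμ⟩ : ∃ μ : ℕ, ∑ i ∈ range (d + 1), (hasseDeriv i Q).eval 1 < 2 ^ μ :=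
    ⟨_, Nat.lt_two_pow_self⟩
  obtain ⟨v, hv⟩ : ∃ v : ℕ, q * (z + 2 ^ F) < 2 ^ v := ⟨_, Nat.lt_two_pow_self⟩
  have hFv : F < v := by
    have h1 : 2 ^ F ≤ q * (z + 2 ^ F) := by nlinarith [Nat.zero_le z, Nat.zero_le (2 ^ F)]
    exact (Nat.pow_lt_pow_iff_right (by norm_num)).mp (lt_of_le_of_lt h1 hv)
  set s := r * d + μ with hs
  set D := 2 ^ F * q with hD
  have hDpos : 0 < D := by positivity
  have hDr : (0 : ℝ) < D := by exact_mod_cast hDpos
  have hβα : 0 < β - α := by linarith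
  refine ⟨(β - α) / (2 * D * 2 ^ (s + v)), by positivity, cm + r + 1, ?_⟩
  have hpow : Tendsto (fun g : ℕ => (2 : ℝ) ^ g) atTop atTop :=
    tendsto_pow_atTop_atTop_of_one_lt (by norm_num)
  have e1 : ∀ᶠ g : ℕ in atTop, (1 : ℝ) ≤ ((β - α) / (2 * D)) * 2 ^ g :=
    (hpow.const_mul_atTop (by positivity)).eventually_ge_atTop _
  filter_upwards [htop, e1, eventually_ge_atTop (s + v)] with g hg1 hg2 hg3
  obtain ⟨G, rfl⟩ : ∃ G, g = s + v + G := ⟨g - (s + v), by omega⟩
  set g := s + v + G with hg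
  -- the parameters
  have hZb : ∀ t < 2 ^ G, q * (z + 2 ^ F * t) ≤ 2 ^ (v + G) := by
    intro t ht
    have hG1 : 1 ≤ 2 ^ G := Nat.one_le_two_pow
    calc q * (z + 2 ^ F * t) ≤ q * (z * 2 ^ G + 2 ^ F * 2 ^ G) := by
          apply Nat.mul_le_mul_left
          exact Nat.add_le_add (Nat.le_mul_of_pos_right z (by omega)) (Nat.mul_le_mul_left _ ht.le)
      _ = (q * (z + 2 ^ F)) * 2 ^ G := by ring
      _ ≤ 2 ^ v * 2 ^ G := Nat.mul_le_mul_right _ hv.le
      _ = 2 ^ (v + G) := by rw [pow_add]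
  set Xs : Finset ℕ := Icc ⌈α * 2 ^ g / D⌉₊ ⌊β * 2 ^ g / D⌋₊ with hXs
  have hX : ∀ x ∈ Xs, α * 2 ^ g ≤ ((D * x : ℕ) : ℝ) ∧ ((D * x : ℕ) : ℝ) ≤ β * 2 ^ g := by
    intro x hx
    rw [hXs, mem_Icc] at hx
    have h1 : α * 2 ^ g / D ≤ x := (Nat.le_ceil _).trans (by exact_mod_cast hx.1)
    have h2 : (x : ℝ) ≤ β * 2 ^ g / D :=
      (Nat.cast_le.mpr hx.2).trans (Nat.floor_le (by
        have : 0 < β := by linarith
        positivity))
    push_cast
    rw [div_le_iff₀ hDr] at h1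
    rw [le_div_iff₀ hDr] at h2
    constructor <;> nlinarith
  -- the choice of the exponent
  have hchoice : ∀ x t : ℕ, ∃ c ≤ cm, ∀ j : Fin k,
      kap (P / 2 ^ c) (z * (q * (derivative Q).eval (j : ℕ))) =
        w j - (tau (Q.eval (D * x + j)) + Usum Q (D * x + j) (q * (z + 2 ^ F * t))) :=
    fun x t => hpat _
  choose cf hcf1 hcf2 using hchoice
  let φ : ℕ × ℕ → ℕ := fun y => D * y.1 + 2 ^ (d * g + cf y.1 y.2) * (q * (z + 2 ^ F * y.2))
  have hgr : r + 1 ≤ g := by
    have : r ≤ r * d := Nat.le_mul_of_pos_right r (by omega)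
    omega
  have hdg : 2 * g ≤ d * g := Nat.mul_le_mul_right g hd
  have hCb : ∀ x ∈ Xs, D * x ≤ 2 ^ (g + r) := by
    intro x hx
    have h1 := ((hg1 (D * x) (hX x hx).1 (hX x hx).2) 0 (Nat.zero_le _)).1
    have h2 : ((D * x : ℕ) : ℝ) ≤ ((2 ^ (g + r) : ℕ) : ℝ) := by
      rw [add_zero] at h1
      push_cast at h1 ⊢
      rw [pow_add]
      nlinarith [show (0 : ℝ) < 2 ^ g by positivity]
    exact_mod_cast h2
  have hCb' : ∀ x ∈ Xs, D * x < 2 ^ (d * g) := by
    intro x hx
    exact lt_of_le_of_lt (hCb x hx) (Nat.pow_lt_pow_right (by norm_num) (by omega))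
  have hcard : #(Xs ×ˢ range (2 ^ G)) ≤
      #{m ∈ range (2 ^ ((d + 1) * g + (cm + r + 1))) | Good Q q k w m} := by
    apply card_le_card_of_injOn φ
    · rintro ⟨x, t⟩ hxt
      rw [mem_coe, mem_product, mem_range] at hxt
      obtain ⟨hx, ht⟩ := hxt
      simp only at hx ht
      rw [mem_coe, mem_filter, mem_range]
      refine ⟨?_, ?_, ?_⟩
      · have h1 : D * x < 2 ^ (d * g + g + cm + r) :=
          lt_of_lt_of_le (hCb' x hx) (Nat.pow_le_pow_right (by norm_num) (by omega))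
        have h2 : 2 ^ (d * g + cf x t) * (q * (z + 2 ^ F * t)) ≤ 2 ^ (d * g + g + cm + r) := by
          calc 2 ^ (d * g + cf x t) * (q * (z + 2 ^ F * t))
              ≤ 2 ^ (d * g + cm) * 2 ^ (v + G) :=
                Nat.mul_le_mul (Nat.pow_le_pow_right (by norm_num) (by have := hcf1 x t; omega))
                  (hZb t ht)
            _ = 2 ^ (d * g + cm + (v + G)) := by rw [← pow_add]
            _ ≤ _ := Nat.pow_le_pow_right (by norm_num) (by omega)
        have h3 : (d + 1) * g + (cm + r + 1) = d * g + g + cm + r + 1 := by ring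
        rw [h3, pow_succ]
        simp only [φ]
        omega
      · simp only [φ]
        refine dvd_add ?_ ?_
        · rw [hD]
          exact Dvd.dvd.mul_right (Dvd.intro_left _ rfl) _
        · exact Dvd.dvd.mul_left (Dvd.intro _ rfl) _
      · intro j
        have hj := hg1 (D * x) (hX x hx).1 (hX x hx).2 j j.2.le
        have h1 : D * x + 2 ^ (d * g + cf x t) * (q * (z + 2 ^ F * t)) + (j : ℕ) =
            D * x + j + 2 ^ (d * g + cf x t) * (q * (z + 2 ^ F * t)) := by ring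
        simp only [φ]
        rw [h1]
        have h2 := tau_value (Q := Q) (by omega) (F := F) (C := D * x) (j := (j : ℕ))
          (e := d * g + cf x t) (q := q) (z := z) (t := t) (A := P / 2 ^ (cf x t)) (by omega)
          (by
            rw [hD, mul_assoc]
            exact Dvd.intro _ rfl)
          (by
            intro i hi1 hi2
            have hxb : D * x + (j : ℕ) ≤ 2 ^ (g + r) := by
              have h2 : ((D * x + (j : ℕ) : ℕ) : ℝ) ≤ ((2 ^ (g + r) : ℕ) : ℝ) := by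
                refine hj.1.trans ?_
                push_cast
                rw [pow_add 2 g r]
                nlinarith [show (0 : ℝ) < 2 ^ g by positivity]
              exact_mod_cast h2
            have h3 := level_bound (Q := Q) (r := r) (μ := μ) (g' := v + G)
              (x := D * x + (j : ℕ)) (Z := q * (z + 2 ^ F * t)) (i := i) hμ (by omega)
              (by
                refine hxb.trans (Nat.pow_le_pow_right (by norm_num) ?_)
                rw [← hdd, ← hs]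
                omega)
              (hZb t ht) hi1 hi2.le
            refine lt_of_lt_of_le h3 (Nat.pow_le_pow_right (by norm_num) ?_)
            rw [← hdd, ← hs]
            have : s + (v + G) = g := by omega
            rw [this]
            omega)
          (by rw [pow_add, ← Nat.div_div_eq_div_mul, hj.2.2])
          (by
            have := hF j j.2
            have h4 : P / 2 ^ cf x t ≤ P := Nat.div_le_self _ _
            omega)
        rw [h2, hcf2 x t j]
        ring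
    · rintro ⟨x, t⟩ hxt ⟨x', t'⟩ hxt' heq
      rw [mem_coe, mem_product, mem_range] at hxt hxt'
      obtain ⟨hx, ht⟩ := hxt
      obtain ⟨hx', ht'⟩ := hxt'
      simp only at hx ht hx' ht'
      simp only [φ] at heq
      have he : ∀ x t, 2 ^ (d * g + cf x t) * (q * (z + 2 ^ F * t)) =
          2 ^ (d * g) * (2 ^ cf x t * (q * (z + 2 ^ F * t))) := by
        intro x t
        rw [pow_add, mul_assoc]
      rw [he, he] at heq
      have h1 := congrArg (fun m => m % 2 ^ (d * g)) heq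
      simp only [Nat.add_mul_mod_self_left, Nat.mod_eq_of_lt (hCb' x hx),
        Nat.mod_eq_of_lt (hCb' x' hx')] at h1
      have hxx : x = x' := Nat.eq_of_mul_eq_mul_left hDpos h1
      subst hxx
      have h2 := Nat.add_left_cancel heq
      have h3 : 2 ^ cf x t * (q * (z + 2 ^ F * t)) = 2 ^ cf x t' * (q * (z + 2 ^ F * t')) :=
        Nat.eq_of_mul_eq_mul_left (by positivity) h2
      have h4 : 2 ^ cf x t * (z + 2 ^ F * t) = 2 ^ cf x t' * (z + 2 ^ F * t') := by
        apply Nat.eq_of_mul_eq_mul_left hq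
        linarith
      have hodd : ∀ t, Odd (z + 2 ^ F * t) := by
        intro t
        apply hz.add_even
        obtain ⟨F', rfl⟩ : ∃ F', F = F' + 1 := ⟨F - 1, by omega⟩
        rw [pow_succ]
        exact (even_two.mul_left (2 ^ F')).mul_right _
      have key : ∀ a b m n : ℕ, Odd m → Odd n → 2 ^ a * m = 2 ^ b * n → a ≤ b → m = n := by
        intro a b m n hm hn hab hle
        obtain ⟨c, rfl⟩ : ∃ c, b = a + c := ⟨b - a, by omega⟩
        rw [pow_add, mul_assoc] at hab
        have h5 := Nat.eq_of_mul_eq_mul_left (by positivity) hab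
        rcases Nat.eq_zero_or_pos c with h6 | h6
        · rw [h6, pow_zero, one_mul] at h5
          exact h5
        · exfalso
          obtain ⟨c', rfl⟩ : ∃ c', c = c' + 1 := ⟨c - 1, by omega⟩
          rw [h5, pow_succ] at hm
          have : Even (2 ^ c' * 2 * n) := (even_two.mul_left (2 ^ c')).mul_right _
          exact (Nat.not_odd_iff_even.mpr this) hm
      have h5 : z + 2 ^ F * t = z + 2 ^ F * t' := by
        rcases le_total (cf x t) (cf x t') with h6 | h6
        · exact key _ _ _ _ (hodd t) (hodd t') h4 h6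
        · exact (key _ _ _ _ (hodd t') (hodd t) h4.symm h6).symm
      have h6 : t = t' := Nat.eq_of_mul_eq_mul_left (by positivity) (Nat.add_left_cancel h5)
      rw [h6]
  have hcard2 : ((β - α) / (2 * D * 2 ^ (s + v)) * 4 ^ g : ℝ) ≤ #(Xs ×ˢ range (2 ^ G)) := by
    rw [card_product, card_range, hXs, Nat.card_Icc]
    set a := ⌈α * 2 ^ g / D⌉₊ with ha
    set b := ⌊β * 2 ^ g / D⌋₊ with hb
    have h1 : (a : ℝ) < α * 2 ^ g / D + 1 := Nat.ceil_lt_add_one (by positivity)
    have h2 : β * 2 ^ g / D < b + 1 := Nat.lt_floor_add_one _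
    have h3 : (b : ℝ) + 1 ≤ ((b + 1 - a : ℕ) : ℝ) + a := by
      exact_mod_cast (le_tsub_add : b + 1 ≤ b + 1 - a + a)
    have h4 : (β - α) / (2 * D) * 2 ^ g ≤ ((b + 1 - a : ℕ) : ℝ) := by
      have h5 : β * 2 ^ g / D - α * 2 ^ g / D = 2 * ((β - α) / (2 * D) * 2 ^ g) := by
        field_simp
      linarith
    push_cast
    have h6 : (4 : ℝ) ^ g = 2 ^ g * (2 ^ (s + v) * 2 ^ G) := by
      rw [← pow_add, ← hg, ← mul_pow]
      norm_num
    calc (β - α) / (2 * D * 2 ^ (s + v)) * 4 ^ g = ((β - α) / (2 * D) * 2 ^ g) * 2 ^ G := by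
          rw [h6]; field_simp
      _ ≤ ((b + 1 - a : ℕ) : ℝ) * 2 ^ G := by gcongr
  exact hcard2.trans (by exact_mod_cast hcard)

end Pool.Agent.Lib.MP_86b630_nt
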