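import Mathlib

/-! Binary digit sums modulo 2, and the carry parity `kap`. -/

namespace Pool.Agent.Lib.MP_86b630_nt

open Finset

/-- The binary sum of digits modulo 2. -/
def tau (n : ℕ) : ZMod 2 := ((Nat.digits 2 n).sum : ZMod 2)

lemma tau_zero : tau 0 = 0 := by simp [tau]

lemma tau_two_mul_add (n r : ℕ) (hr : r < 2) : tau (2 * n + r) = tau n + r := by
  rcases Nat.eq_zero_or_pos (2 * n + r) with h | h
  · have h1 : n = 0 := by omega
    have h2 : r = 0 := by omega
    subst h1 h2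
    simp
  · unfold tau
    rw [Nat.digits_def' (by norm_num) h]
    have h1 : (2 * n + r) % 2 = r := by omega
    have h2 : (2 * n + r) / 2 = n := by omega
    rw [h1, h2, List.sum_cons]
    push_cast
    ring

lemma tau_add_mul_pow : ∀ (e a b : ℕ), a < 2 ^ e → tau (a + 2 ^ e * b) = tau a + tau b := by
  intro e
  induction e with
  | zero =>
    intro a b ha
    have : a = 0 := by simpa using ha
    subst this
    simp [tau_zero]
  | succ e ih =>
    intro a b ha
    have h1 : a = 2 * (a / 2) + a % 2 := by omega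
    have h2 : a + 2 ^ (e + 1) * b = 2 * (a / 2 + 2 ^ e * b) + a % 2 := by
      rw [pow_succ]
      have : 2 ^ e * 2 * b = 2 * (2 ^ e * b) := by ring
      omega
    have h3 : a / 2 < 2 ^ e := by
      rw [pow_succ] at ha
      omega
    have h4 : tau a = tau (a / 2) + (a % 2 : ℕ) := by
      conv_lhs => rw [h1]
      exact tau_two_mul_add _ _ (Nat.mod_lt _ (by norm_num))
    rw [h2, tau_two_mul_add _ _ (Nat.mod_lt _ (by norm_num)), ih _ _ h3, h4]
    ring

lemma tau_pow_mul (e b : ℕ) : tau (2 ^ e * b) = tau b := by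
  have := tau_add_mul_pow e 0 b (by positivity)
  simpa [tau_zero] using this

lemma tau_one : tau 1 = 1 := by
  have := tau_two_mul_add 0 1 (by norm_num)
  simpa [tau_zero] using this

lemma tau_pow (e : ℕ) : tau (2 ^ e) = 1 := by
  have := tau_pow_mul e 1
  rw [mul_one, tau_one] at this
  exact this

/-- complement -/
lemma tau_compl : ∀ (K m : ℕ), m < 2 ^ K → tau (2 ^ K - 1 - m) = (K : ZMod 2) + tau m := by
  intro K
  induction K with
  | zero =>
    intro m hm
    have : m = 0 := by simpa using hm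
    subst this
    simp [tau_zero]
  | succ K ih =>
    intro m hm
    have h3 : m / 2 < 2 ^ K := by
      rw [pow_succ] at hm
      omega
    have h1 : 2 ^ (K + 1) - 1 - m = 2 * (2 ^ K - 1 - m / 2) + (1 - m % 2) := by
      rw [pow_succ] at *
      omega
    have h4 : tau m = tau (m / 2) + (m % 2 : ℕ) := by
      conv_lhs => rw [show m = 2 * (m / 2) + m % 2 by omega]
      exact tau_two_mul_add _ _ (Nat.mod_lt _ (by norm_num))
    rw [h1, tau_two_mul_add _ _ (by omega), ih _ h3, h4]
    have h5 : ((1 - m % 2 : ℕ) : ZMod 2) = 1 + ((m % 2 : ℕ) : ZMod 2) := by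
      rcases Nat.mod_two_eq_zero_or_one m with h | h
      · rw [h]; simp
      · rw [h]; decide
    rw [h5]
    push_cast
    ring

lemma tau_pow_sub {K h : ℕ} (h1 : 1 ≤ h) (h2 : h ≤ 2 ^ K) :
    tau (2 ^ K - h) = (K : ZMod 2) + tau (h - 1) := by
  rw [← tau_compl K (h - 1) (by omega)]
  congr 1
  omega

lemma zmod2_add_self (x : ZMod 2) : x + x = 0 := CharTwo.add_self_eq_zero x

/-- The parity of the number of carries in the addition `a + m`. -/
def kap (a m : ℕ) : ZMod 2 := tau (a + m) + tau a + tau m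

lemma kap_zero_left (m : ℕ) : kap 0 m = 0 := by
  unfold kap
  rw [zero_add, tau_zero, add_zero, zmod2_add_self]

lemma kap_zero_right (a : ℕ) : kap a 0 = 0 := by
  unfold kap
  rw [add_zero, tau_zero, add_zero, zmod2_add_self]

lemma kap_zone {p a₁ m₁ : ℕ} (h : a₁ + m₁ < 2 ^ p) (a₂ m₂ : ℕ) :
    kap (a₁ + 2 ^ p * a₂) (m₁ + 2 ^ p * m₂) = kap a₁ m₁ + kap a₂ m₂ := by
  unfold kap
  have h1 : a₁ + 2 ^ p * a₂ + (m₁ + 2 ^ p * m₂) = (a₁ + m₁) + 2 ^ p * (a₂ + m₂) := by ring
  rw [h1, tau_add_mul_pow _ _ _ h, tau_add_mul_pow _ _ _ (by omega),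
    tau_add_mul_pow _ _ _ (by omega)]
  ring

lemma kap_pair {K u v : ℕ} (hu : 1 ≤ u) (huK : u ≤ 2 ^ K) (hv : v < 2 ^ K) :
    kap (2 ^ K - u) v + kap (2 ^ (K + 1) - u) v = if u ≤ v then 1 else 0 := by
  have huK' : u ≤ 2 ^ (K + 1) := huK.trans (Nat.pow_le_pow_right (by norm_num) (by omega))
  unfold kap
  rw [tau_pow_sub hu huK, tau_pow_sub hu huK']
  split_ifs with h
  · have h1 : 2 ^ K - u + v = (v - u) + 2 ^ K * 1 := by omega
    have h2 : 2 ^ (K + 1) - u + v = (v - u) + 2 ^ (K + 1) * 1 := by omega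
    rw [h1, h2, tau_add_mul_pow _ _ _ (by omega), tau_add_mul_pow _ _ _ (by
      rw [pow_succ]; omega), tau_one]
    push_cast
    have : ∀ a b c k : ZMod 2, a + 1 + (k + b) + c + (a + 1 + (k + 1 + b) + c) = 1 := by decide
    exact this _ _ _ _
  · have h1 : 2 ^ K - u + v = 2 ^ K - (u - v) := by omega
    have h2 : 2 ^ (K + 1) - u + v = 2 ^ (K + 1) - (u - v) := by omega
    rw [h1, h2, tau_pow_sub (by omega) (by omega), tau_pow_sub (by omega) (by omega)]
    push_cast
    have : ∀ a b c k : ZMod 2, k + a + (k + b) + c + (k + 1 + a + (k + 1 + b) + c) = 0 := by decide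
    exact this _ _ _ _

end Pool.Agent.Lib.MP_86b630_nt
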