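import Pool.Agent.Lib.MP_86b630_nt.Pattern

/-! Digit sums of `Q (C + j + 2 ^ e * Z)`. -/

namespace Pool.Agent.Lib.MP_86b630_nt

open Finset Polynomial

lemma eval_add_eq (Q : ℕ[X]) (x y : ℕ) : Q.eval (x + y) =
    ∑ i ∈ range (Q.natDegree + 1), (hasseDeriv i Q).eval x * y ^ i := by
  rw [add_comm, ← taylor_eval, eval_eq_sum_range, natDegree_taylor]
  simp [taylor_coeff]

lemma tau_sum (e : ℕ) : ∀ (m : ℕ) (c : ℕ → ℕ), (∀ i < m, c i < 2 ^ e) →
    tau (∑ i ∈ range (m + 1), c i * 2 ^ (e * i)) = ∑ i ∈ range (m + 1), tau (c i) := by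
  intro m
  induction m with
  | zero => intro c _; simp
  | succ m ih =>
    intro c hc
    rw [sum_range_succ', sum_range_succ' (fun i => tau (c i))]
    have h1 : ∑ i ∈ range (m + 1), c (i + 1) * 2 ^ (e * (i + 1)) + c 0 * 2 ^ (e * 0) =
        c 0 + 2 ^ e * ∑ i ∈ range (m + 1), c (i + 1) * 2 ^ (e * i) := by
      rw [mul_sum, mul_zero, pow_zero, mul_one, add_comm]
      congr 1
      apply sum_congr rfl
      intro i _
      ring
    rw [h1, tau_add_mul_pow _ _ _ (hc 0 (by omega)), ih (fun i => c (i + 1))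
      (fun i hi => hc (i + 1) (by omega)), add_comm]

/-- The part of `Q (x + 2 ^ e * Z)` above level `0`. -/
noncomputable def Bsum (Q : ℕ[X]) (x e Z : ℕ) : ℕ :=
  ∑ i ∈ range Q.natDegree, (hasseDeriv (i + 1) Q).eval x * Z ^ (i + 1) * 2 ^ (e * i)

/-- The digit sums of the levels `≥ 1`. -/
noncomputable def Usum (Q : ℕ[X]) (x Z : ℕ) : ZMod 2 :=
  ∑ i ∈ range Q.natDegree, tau ((hasseDeriv (i + 1) Q).eval x * Z ^ (i + 1))

lemma eval_eq_Bsum (Q : ℕ[X]) (x e Z : ℕ) :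
    Q.eval (x + 2 ^ e * Z) = Q.eval x + 2 ^ e * Bsum Q x e Z := by
  rw [eval_add_eq, sum_range_succ', Bsum, mul_sum, hasseDeriv_zero', pow_zero, mul_one, add_comm]
  congr 1
  apply sum_congr rfl
  intro i _
  ring

lemma tau_Bsum {Q : ℕ[X]} (hQ : 1 ≤ Q.natDegree) {x e Z : ℕ}
    (h : ∀ i, 1 ≤ i → i < Q.natDegree → (hasseDeriv i Q).eval x * Z ^ i < 2 ^ e) :
    tau (Bsum Q x e Z) = Usum Q x Z := by
  obtain ⟨d, hd⟩ : ∃ d, Q.natDegree = d + 1 := ⟨Q.natDegree - 1, by omega⟩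
  unfold Bsum Usum
  rw [hd]
  exact tau_sum e d (fun i => (hasseDeriv (i + 1) Q).eval x * Z ^ (i + 1))
    (fun i hi => h (i + 1) (by omega) (by omega))

lemma tau_eval {Q : ℕ[X]} (hQ : 1 ≤ Q.natDegree) {x e Z : ℕ}
    (h : ∀ i, 1 ≤ i → i < Q.natDegree → (hasseDeriv i Q).eval x * Z ^ i < 2 ^ e) :
    tau (Q.eval (x + 2 ^ e * Z)) =
      tau (Q.eval x) + Usum Q x Z + kap (Q.eval x / 2 ^ e) (Bsum Q x e Z) := by
  rw [← tau_Bsum hQ h, eval_eq_Bsum]
  set q := Q.eval x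
  set B := Bsum Q x e Z
  have h1 : q % 2 ^ e < 2 ^ e := Nat.mod_lt _ (by positivity)
  have h2 : q + 2 ^ e * B = q % 2 ^ e + 2 ^ e * (q / 2 ^ e + B) := by
    conv_lhs => rw [← Nat.mod_add_div q (2 ^ e)]
    ring
  have h3 : tau q = tau (q % 2 ^ e) + tau (q / 2 ^ e) := by
    conv_lhs => rw [← Nat.mod_add_div q (2 ^ e)]
    exact tau_add_mul_pow _ _ _ h1
  rw [h2, tau_add_mul_pow _ _ _ h1, h3]
  unfold kap
  generalize tau (q % 2 ^ e) = a
  generalize tau (q / 2 ^ e) = b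
  generalize tau (q / 2 ^ e + B) = c
  generalize tau B = d
  revert a b c d
  decide

lemma kap_mod {A B F β : ℕ} (h : B % 2 ^ F = β) (hA : A + β < 2 ^ F) : kap A B = kap A β := by
  have h1 := kap_zone hA 0 (B / 2 ^ F)
  rw [mul_zero, add_zero, kap_zero_left, add_zero, ← h, Nat.mod_add_div] at h1
  rw [h1, h]

lemma Bsum_mod {Q : ℕ[X]} (hQ : 1 ≤ Q.natDegree) {F C j e q z t : ℕ} (hFe : F ≤ e)
    (hC : 2 ^ F ∣ C) : Bsum Q (C + j) e (q * (z + 2 ^ F * t)) ≡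
      z * (q * (derivative Q).eval j) [MOD 2 ^ F] := by
  obtain ⟨d, hd⟩ : ∃ d, Q.natDegree = d + 1 := ⟨Q.natDegree - 1, by omega⟩
  obtain ⟨e', rfl⟩ : ∃ e', e = F + e' := ⟨e - F, by omega⟩
  obtain ⟨C', rfl⟩ := hC
  rw [← ZMod.natCast_eq_natCast_iff]
  unfold Bsum
  rw [hd, sum_range_succ', Nat.cast_add]
  have hz : ((2 : ZMod (2 ^ F)) ^ F) = 0 := by
    have := ZMod.natCast_self (2 ^ F)
    push_cast at this
    exact this
  have h1 : ((∑ i ∈ range d, (hasseDeriv (i + 1 + 1) Q).eval (2 ^ F * C' + j) *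
      (q * (z + 2 ^ F * t)) ^ (i + 1 + 1) * 2 ^ ((F + e') * (i + 1)) : ℕ) : ZMod (2 ^ F)) = 0 := by
    push_cast
    apply sum_eq_zero
    intro i _
    have : (2 : ZMod (2 ^ F)) ^ ((F + e') * (i + 1)) = 2 ^ F * 2 ^ (e' + (F + e') * i) := by
      rw [← pow_add]; congr 1; ring
    rw [this, hz]
    ring
  rw [h1]
  have h2 : (((derivative Q).eval (2 ^ F * C' + j) : ℕ) : ZMod (2 ^ F)) =
      (((derivative Q).eval j : ℕ) : ZMod (2 ^ F)) := by
    have e1 := eval_natCast_map (Nat.castRingHom (ZMod (2 ^ F))) (derivative Q) (2 ^ F * C' + j)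
    have e2 := eval_natCast_map (Nat.castRingHom (ZMod (2 ^ F))) (derivative Q) j
    have e3 : ((2 ^ F * C' + j : ℕ) : ZMod (2 ^ F)) = (j : ZMod (2 ^ F)) := by
      push_cast
      rw [hz]
      ring
    rw [e3, e2] at e1
    simpa using e1.symm
  rw [zero_add, mul_zero, pow_zero, mul_one, zero_add, pow_one, hasseDeriv_one]
  push_cast
  rw [h2, hz]
  ring

/-- The value of the digit sum when only the top digits of level `0` meet level `1`. -/
lemma tau_value {Q : ℕ[X]} (hQ : 1 ≤ Q.natDegree) {F C j e q z t A : ℕ} (hFe : F ≤ e)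
    (hC : 2 ^ F ∣ C)
    (h : ∀ i, 1 ≤ i → i < Q.natDegree →
      (hasseDeriv i Q).eval (C + j) * (q * (z + 2 ^ F * t)) ^ i < 2 ^ e)
    (hA : Q.eval (C + j) / 2 ^ e = A) (hAF : A + z * (q * (derivative Q).eval j) < 2 ^ F) :
    tau (Q.eval (C + j + 2 ^ e * (q * (z + 2 ^ F * t)))) =
      tau (Q.eval (C + j)) + Usum Q (C + j) (q * (z + 2 ^ F * t)) +
        kap A (z * (q * (derivative Q).eval j)) := by
  rw [tau_eval hQ h, hA]
  congr 1
  apply kap_mod _ hAF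
  have h1 := Bsum_mod (q := q) (z := z) (t := t) (j := j) hQ hFe hC
  rw [Nat.ModEq] at h1
  rw [h1]
  exact Nat.mod_eq_of_lt (by omega)

end Pool.Agent.Lib.MP_86b630_nt
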