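import Pool.Agent.Lib.MP_86b630_nt.Count

/-! Occurrences of words in the Thue-Morse sequence along polynomials. -/

namespace Pool.Agent.Lib.MP_86b630_nt

open Finset Polynomial Filter

/-- The Thue-Morse sequence `t(n) = s₂(n) mod 2`. -/
def thueMorse (n : ℕ) : ℕ := (Nat.digits 2 n).sum % 2

lemma thueMorse_eq_iff {m b : ℕ} (hb : b < 2) : thueMorse m = b ↔ tau m = (b : ZMod 2) := by
  unfold thueMorse tau
  rw [ZMod.natCast_eq_natCast_iff', Nat.mod_eq_of_lt hb]

theorem main {P : ℤ[X]} (hd : 2 ≤ P.natDegree) (hP : ∀ n : ℕ, 0 ≤ P.eval (n : ℤ))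
    {k : ℕ} (w : Fin k → ℕ) (hw : ∀ i, w i < 2) {q : ℕ} (hq : 0 < q) (a : ℕ) :
    ∃ c : ℝ, 0 < c ∧ ∀ᶠ N : ℕ in atTop,
      c * (N : ℝ) ^ ((2 : ℝ) / (P.natDegree + 1)) ≤
        (#{n ∈ range N | n ≡ a [MOD q] ∧
          ∀ i : Fin k, thueMorse (P.eval ((n + i : ℕ) : ℤ)).toNat = w i} : ℝ) := by
  classical
  obtain ⟨b, hb, Q, hQd, hQ, hQ1⟩ := exists_shift (by omega) hP a hq
  obtain ⟨κ, hκ, M, hM⟩ := count_nat (by omega) hQ1 hq k (fun i => (w i : ZMod 2))
  have h1 := transfer (fun n => n ≡ a [MOD q] ∧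
    ∀ i : Fin k, thueMorse (P.eval ((n + i : ℕ) : ℤ)).toNat = w i) P.natDegree (M + b + 1) hκ (by
      filter_upwards [hM] with g hg
      refine hg.trans ?_
      rw [hQd]
      have : #{m ∈ range (2 ^ ((P.natDegree + 1) * g + M)) |
          Good Q q k (fun i => (w i : ZMod 2)) m} ≤
          #{n ∈ range (2 ^ ((P.natDegree + 1) * g + (M + b + 1))) | n ≡ a [MOD q] ∧
            ∀ i : Fin k, thueMorse (P.eval ((n + i : ℕ) : ℤ)).toNat = w i} := by
        apply card_le_card_of_injOn (fun m => m + b)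
        · intro m hm
          rw [mem_coe, mem_filter, mem_range] at hm ⊢
          obtain ⟨hm1, hm2, hm3⟩ := hm
          refine ⟨?_, ?_, ?_⟩
          · have h2 : b < 2 ^ b := Nat.lt_two_pow_self
            have h3 : 2 ^ b ≤ 2 ^ ((P.natDegree + 1) * g + M + b) :=
              Nat.pow_le_pow_right (by norm_num) (by omega)
            have h4 : 2 ^ ((P.natDegree + 1) * g + M) ≤ 2 ^ ((P.natDegree + 1) * g + M + b) :=
              Nat.pow_le_pow_right (by norm_num) (by omega)
            have h5 : (P.natDegree + 1) * g + (M + b + 1) =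
              (P.natDegree + 1) * g + M + b + 1 := by ring
            rw [h5, pow_succ]
            simp only
            omega
          · have h2 : m + b ≡ 0 + b [MOD q] :=
              Nat.ModEq.add_right b ((Nat.modEq_zero_iff_dvd).mpr hm2)
            rw [zero_add] at h2
            exact h2.trans hb
          · intro i
            have h6 : tau (Q.eval (m + (i : ℕ))) = (w i : ZMod 2) := hm3 i
            rw [thueMorse_eq_iff (hw i), ← h6]
            congr 1
            have h2 := hQ (m + i)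
            have h3 : ((m + b + (i : ℕ) : ℕ) : ℤ) = ((m + (i : ℕ) + b : ℕ) : ℤ) := by
              push_cast; ring
            simp only
            rw [h3, ← h2, Int.toNat_natCast]
        · intro m _ m' _ h
          exact Nat.add_right_cancel h
      refine le_trans ((Nat.cast_le (α := ℝ)).mpr this) (le_of_eq ?_)
      congr!)
  obtain ⟨c, hc, h2⟩ := h1
  refine ⟨c, hc, ?_⟩
  filter_upwards [h2] with N hN
  convert hN

end Pool.Agent.Lib.MP_86b630_nt
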