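import Pool.Agent.Lib.MP_86b630_nt.Digits

/-! Every vector of carry parities is realised by the prefixes of one binary pattern. -/

namespace Pool.Agent.Lib.MP_86b630_nt

open Finset

lemma exists_mult_aux (k : ℕ) (u : ℕ → ℕ) (hu : ∀ i j, i < j → j < k → u i < u j)
    (h0 : ∀ i < k, 0 < u i) : ∀ m ≤ k, ∃ z p : ℕ, Odd z ∧ 0 < p ∧ ∀ s : ℕ → ZMod 2, ∃ A : ℕ,
      ∀ j < k, A + z * u j < 2 ^ p ∧
        kap A (z * u j) = ∑ i ∈ range m, if i ≤ j then s i else 0 := by
  -- a common bound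
  obtain ⟨K, hK⟩ : ∃ K : ℕ, ∀ j < k, u j < 2 ^ K := by
    refine ⟨∑ j ∈ range k, u j, fun j hj => ?_⟩
    have h1 : u j ≤ ∑ j ∈ range k, u j :=
      Finset.single_le_sum (f := u) (fun _ _ => Nat.zero_le _) (Finset.mem_range.mpr hj)
    exact lt_of_le_of_lt h1 Nat.lt_two_pow_self
  intro m
  induction m with
  | zero =>
    intro _
    refine ⟨1, K + 1, odd_one, by omega, fun s => ⟨0, fun j hj => ⟨?_, ?_⟩⟩⟩
    · have := hK j hj
      rw [pow_succ]
      omega
    · rw [kap_zero_left]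
      simp
  | succ m ih =>
    intro hm
    obtain ⟨z, p, hz, hp, h⟩ := ih (by omega)
    have hum : u m < 2 ^ K := hK m (by omega)
    have hum0 : 0 < u m := h0 m (by omega)
    refine ⟨z + 2 ^ p * (1 + 2 ^ (K + 1) * 1), p + ((K + 1) + (K + 3)), ?_, by omega,
      fun s => ?_⟩
    · apply hz.add_even
      obtain ⟨p', rfl⟩ : ∃ p', p = p' + 1 := ⟨p - 1, by omega⟩
      rw [pow_succ]
      exact (even_two.mul_left (2 ^ p')).mul_right _
    · obtain ⟨A, hA⟩ := h s
      set a₂ : ℕ := if s m = 0 then 0 else (2 ^ K - u m) + 2 ^ (K + 1) * (2 ^ (K + 1) - u m)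
        with ha₂
      have hk1 : (2 : ℕ) ^ (K + 1) = 2 * 2 ^ K := by ring
      have ha₂b : a₂ ≤ (2 ^ K - u m) + 2 ^ (K + 1) * (2 ^ (K + 1) - u m) := by
        rw [ha₂]; split_ifs
        · exact Nat.zero_le _
        · exact le_rfl
      refine ⟨A + 2 ^ p * a₂, fun j hj => ?_⟩
      obtain ⟨h1, h2⟩ := hA j hj
      have huj : u j < 2 ^ K := hK j hj
      have e1 : (z + 2 ^ p * (1 + 2 ^ (K + 1) * 1)) * u j =
          z * u j + 2 ^ p * (u j + 2 ^ (K + 1) * u j) := by ring
      rw [e1]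
      constructor
      · have h3 : a₂ + (u j + 2 ^ (K + 1) * u j) ≤
            (2 ^ K - u m + u j) + 2 ^ (K + 1) * (2 ^ (K + 1) - u m + u j) := by
          calc a₂ + (u j + 2 ^ (K + 1) * u j) ≤
              ((2 ^ K - u m) + 2 ^ (K + 1) * (2 ^ (K + 1) - u m)) + (u j + 2 ^ (K + 1) * u j) :=
                Nat.add_le_add_right ha₂b _
            _ = _ := by ring
        have h4 : 2 ^ K - u m + u j < 2 ^ (K + 1) := by omega
        have h5 : 2 ^ (K + 1) - u m + u j + 1 ≤ 2 ^ (K + 2) := by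
          rw [pow_succ 2 (K + 1)]
          omega
        have h6 : a₂ + (u j + 2 ^ (K + 1) * u j) + 1 ≤ 2 ^ (K + 1) * 2 ^ (K + 2) := by
          calc a₂ + (u j + 2 ^ (K + 1) * u j) + 1 ≤
              (2 ^ K - u m + u j) + 2 ^ (K + 1) * (2 ^ (K + 1) - u m + u j) + 1 := by omega
            _ ≤ 2 ^ (K + 1) * (2 ^ (K + 1) - u m + u j + 1) := by
                generalize 2 ^ (K + 1) - u m + u j = Y
                have : 2 ^ (K + 1) * (Y + 1) = 2 ^ (K + 1) * Y + 2 ^ (K + 1) := by ring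
                omega
            _ ≤ _ := Nat.mul_le_mul_left _ h5
        calc A + 2 ^ p * a₂ + (z * u j + 2 ^ p * (u j + 2 ^ (K + 1) * u j))
            = (A + z * u j) + 2 ^ p * (a₂ + (u j + 2 ^ (K + 1) * u j)) := by ring
          _ < 2 ^ p + 2 ^ p * (a₂ + (u j + 2 ^ (K + 1) * u j)) := by omega
          _ = 2 ^ p * (a₂ + (u j + 2 ^ (K + 1) * u j) + 1) := by ring
          _ ≤ 2 ^ p * (2 ^ (K + 1) * 2 ^ (K + 2)) := Nat.mul_le_mul_left _ h6
          _ = 2 ^ (p + (K + 1) + (K + 2)) := by rw [pow_add, pow_add]; ring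
          _ ≤ 2 ^ (p + ((K + 1) + (K + 3))) := Nat.pow_le_pow_right (by norm_num) (by omega)
      · rw [kap_zone h1, h2, sum_range_succ]
        congr 1
        by_cases hs : s m = 0
        · rw [ha₂, if_pos hs, kap_zero_left, hs]
          simp
        · have hs1 : s m = 1 := by
            have : ∀ x : ZMod 2, x ≠ 0 → x = 1 := by decide
            exact this _ hs
          rw [ha₂, if_neg hs, kap_zone (by omega), kap_pair hum0 hum.le huj, hs1]
          have h7 : u m ≤ u j ↔ m ≤ j := by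
            constructor
            · intro h8
              by_contra h9
              exact absurd (hu j m (by omega) (by omega)) (by omega)
            · intro h8
              rcases Nat.lt_or_ge m j with h9 | h9
              · exact (hu m j h9 hj).le
              · have : m = j := by omega
                rw [this]
          simp only [h7]

lemma exists_mult (k : ℕ) (u : ℕ → ℕ) (hu : ∀ i j, i < j → j < k → u i < u j)
    (h0 : ∀ i < k, 0 < u i) : ∃ z p : ℕ, Odd z ∧ 0 < p ∧ ∀ g : ℕ → ZMod 2, ∃ A : ℕ,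
      ∀ j < k, A + z * u j < 2 ^ p ∧ kap A (z * u j) = g j := by
  obtain ⟨z, p, hz, hp, h⟩ := exists_mult_aux k u hu h0 k le_rfl
  refine ⟨z, p, hz, hp, fun g => ?_⟩
  obtain ⟨A, hA⟩ := h (fun i => g i - if i = 0 then 0 else g (i - 1))
  refine ⟨A, fun j hj => ⟨(hA j hj).1, ?_⟩⟩
  rw [(hA j hj).2]
  have h1 : ∀ n : ℕ, ∑ i ∈ range (n + 1), (g i - if i = 0 then 0 else g (i - 1)) = g n := by
    intro n
    induction n with
    | zero => simp
    | succ n ih =>
      rw [sum_range_succ, ih]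
      simp
  rw [← h1 j, ← Finset.sum_filter]
  apply Finset.sum_congr _ (fun _ _ => rfl)
  ext i
  simp only [mem_filter, mem_range]
  omega

/-- One pattern whose prefixes realise all vectors. -/
lemma exists_pattern (k : ℕ) (u : ℕ → ℕ) (hu : ∀ i j, i < j → j < k → u i < u j)
    (h0 : ∀ i < k, 0 < u i) : ∃ z P cm : ℕ, Odd z ∧ 0 < P ∧ ∀ g : Fin k → ZMod 2, ∃ c ≤ cm,
      ∀ j : Fin k, kap (P / 2 ^ c) (z * u j) = g j := by
  classical
  obtain ⟨z, p, hz, hp, h⟩ := exists_mult k u hu h0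
  have key : ∀ T : Finset (Fin k → ZMod 2), ∃ P cm : ℕ, 0 < P ∧ ∀ g ∈ T, ∃ c ≤ cm,
      ∀ j : Fin k, kap (P / 2 ^ c) (z * u j) = g j := by
    intro T
    induction T using Finset.induction with
    | empty => exact ⟨1, 0, one_pos, by simp⟩
    | insert g T hg ih =>
      obtain ⟨P, cm, hP, hc⟩ := ih
      obtain ⟨A, hA⟩ := h (fun i => if hi : i < k then g ⟨i, hi⟩ else 0)
      by_cases hk : k = 0
      · subst hk
        refine ⟨P, cm, hP, fun g' _ => ⟨0, Nat.zero_le _, fun j => j.elim0⟩⟩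
      have hA0 : A < 2 ^ p := by
        have := (hA 0 (by omega)).1
        omega
      refine ⟨A + 2 ^ p * P, p + cm, by positivity, fun g' hg' => ?_⟩
      rw [Finset.mem_insert] at hg'
      rcases hg' with rfl | hg'
      · refine ⟨0, Nat.zero_le _, fun j => ?_⟩
        rw [pow_zero, Nat.div_one]
        have h1 := hA j j.2
        have h2 := kap_zone h1.1 P 0
        rw [mul_zero, add_zero, kap_zero_right, add_zero, h1.2] at h2
        rw [h2]
        simp
      · obtain ⟨c, hcc, hcj⟩ := hc g' hg'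
        refine ⟨p + c, by omega, fun j => ?_⟩
        rw [pow_add, ← Nat.div_div_eq_div_mul, Nat.add_mul_div_left _ _ (by positivity),
          Nat.div_eq_of_lt hA0, zero_add]
        exact hcj j
  obtain ⟨P, cm, hP, hc⟩ := key Finset.univ
  exact ⟨z, P, cm, hz, hP, fun g => hc g (Finset.mem_univ _)⟩

end Pool.Agent.Lib.MP_86b630_nt
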